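import Mathlib

/-!
# One-sided versus two-sided orthogonality for generalised Butson Hadamard matrices
-/

namespace Pool.Agent.Results.MP_4780e6_al.OneSidedOnly

/-- The matrix over `R` underlying a matrix with unit entries. -/
def toMat {R : Type*} [Ring R] {v : ℕ} (M : Matrix (Fin v) (Fin v) Rˣ) :
    Matrix (Fin v) (Fin v) R := fun i j => (M i j : R)

/-- `M*`: the transpose of the matrix of entrywise inverses. -/
def invT {R : Type*} [Ring R] {v : ℕ} (M : Matrix (Fin v) (Fin v) Rˣ) :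
    Matrix (Fin v) (Fin v) R := fun i j => ((M j i)⁻¹ : Rˣ)

/-- `v I_v` over `R`. -/
def vI (R : Type*) [Ring R] (v : ℕ) : Matrix (Fin v) (Fin v) R :=
  Matrix.diagonal fun _ => (v : R)

/-! ### The example -/

/-- The commutative ring `ℤ[w] ⊕ 𝔽₃ ε`, where `w` is a primitive cube root of unity, `w ε = ε` and
`ε ε = 0`. The triple `x, y, e` stands for `x + y w + e ε`. -/
@[ext] structure E where
  x : ℤ
  y : ℤ
  e : ZMod 3

namespace E

instance : Add E := ⟨fun a b => ⟨a.x + b.x, a.y + b.y, a.e + b.e⟩⟩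
instance : Neg E := ⟨fun a => ⟨-a.x, -a.y, -a.e⟩⟩
instance : Zero E := ⟨⟨0, 0, 0⟩⟩
instance : One E := ⟨⟨1, 0, 0⟩⟩
instance : Mul E := ⟨fun a b => ⟨a.x * b.x - a.y * b.y, a.x * b.y + a.y * b.x - a.y * b.y,
  ((a.x : ZMod 3) + (a.y : ZMod 3)) * b.e + ((b.x : ZMod 3) + (b.y : ZMod 3)) * a.e⟩⟩

@[simp] theorem mul_x (a b : E) : (a * b).x = a.x * b.x - a.y * b.y := rfl
@[simp] theorem mul_y (a b : E) : (a * b).y = a.x * b.y + a.y * b.x - a.y * b.y := rfl
@[simp] theorem mul_e (a b : E) : (a * b).e = ((a.x : ZMod 3) + (a.y : ZMod 3)) * b.e +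
  ((b.x : ZMod 3) + (b.y : ZMod 3)) * a.e := rfl
@[simp] theorem add_x (a b : E) : (a + b).x = a.x + b.x := rfl
@[simp] theorem add_y (a b : E) : (a + b).y = a.y + b.y := rfl
@[simp] theorem add_e (a b : E) : (a + b).e = a.e + b.e := rfl
@[simp] theorem neg_x (a : E) : (-a).x = -a.x := rfl
@[simp] theorem neg_y (a : E) : (-a).y = -a.y := rfl
@[simp] theorem neg_e (a : E) : (-a).e = -a.e := rfl
@[simp] theorem zero_x : (0 : E).x = 0 := rfl
@[simp] theorem zero_y : (0 : E).y = 0 := rfl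
@[simp] theorem zero_e : (0 : E).e = 0 := rfl
@[simp] theorem one_x : (1 : E).x = 1 := rfl
@[simp] theorem one_y : (1 : E).y = 0 := rfl
@[simp] theorem one_e : (1 : E).e = 0 := rfl

theorem three : (3 : ZMod 3) = 0 := by decide

instance : CommRing E where
  add_assoc a b d := by ext <;> simp <;> ring
  zero_add a := by ext <;> simp
  add_zero a := by ext <;> simp
  add_comm a b := by ext <;> simp <;> ring
  neg_add_cancel a := by ext <;> simp
  mul_assoc a b d := by
    ext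
    · simp; ring
    · simp; ring
    · simp only [mul_x, mul_y, mul_e, Int.cast_sub, Int.cast_add, Int.cast_mul]
      linear_combination (-(a.y : ZMod 3) * (b.y : ZMod 3) * d.e +
        (b.y : ZMod 3) * (d.y : ZMod 3) * a.e) * three
  one_mul a := by ext <;> simp
  mul_one a := by ext <;> simp
  left_distrib a b d := by ext <;> simp <;> ring
  right_distrib a b d := by ext <;> simp <;> ring
  mul_comm a b := by ext <;> simp <;> ring
  zero_mul a := by ext <;> simp
  mul_zero a := by ext <;> simp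
  nsmul := nsmulRec
  zsmul := zsmulRec

/-- The unit `w`. -/
def a : Eˣ := ⟨⟨0, 1, 0⟩, ⟨-1, -1, 0⟩, by ext <;> simp, by ext <;> simp⟩

/-- The unit `c = w ^ 2 + ε`. -/
def c : Eˣ := ⟨⟨-1, -1, 1⟩, ⟨0, 1, -1⟩, by ext <;> simp <;> decide, by ext <;> simp <;> decide⟩

/-- The group of all units `w ^ i + e ε` (of order 9). -/
def N : Subgroup Eˣ where
  carrier := {u | ((u : E).x = 1 ∧ (u : E).y = 0) ∨ ((u : E).x = 0 ∧ (u : E).y = 1) ∨
    ((u : E).x = -1 ∧ (u : E).y = -1)}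
  one_mem' := Or.inl ⟨rfl, rfl⟩
  mul_mem' := by
    rintro u w (⟨h1, h2⟩ | ⟨h1, h2⟩ | ⟨h1, h2⟩) (⟨k1, k2⟩ | ⟨k1, k2⟩ | ⟨k1, k2⟩) <;>
      simp [h1, h2, k1, k2]
  inv_mem' := by
    intro u hu
    have h1 : (u : E) * ((u⁻¹ : Eˣ) : E) = 1 := Units.mul_inv u
    have hx := congrArg E.x h1
    have hy := congrArg E.y h1
    simp only [mul_x, mul_y, one_x, one_y] at hx hy
    rcases hu with (⟨h1, h2⟩ | ⟨h1, h2⟩ | ⟨h1, h2⟩) <;> rw [h1, h2] at hx hy
    · left; constructor <;> linarith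
    · right; right; constructor <;> linarith
    · right; left; constructor <;> linarith

theorem finite_N : Finite N := by
  let f : N → Finset.Icc (-1 : ℤ) 1 × Finset.Icc (-1 : ℤ) 1 × ZMod 3 := fun u =>
    (⟨(u : Eˣ).1.x, by
      rw [Finset.mem_Icc]
      rcases u.2 with (⟨h1, h2⟩ | ⟨h1, h2⟩ | ⟨h1, h2⟩) <;> rw [h1] <;> norm_num⟩,
     ⟨(u : Eˣ).1.y, by
      rw [Finset.mem_Icc]
      rcases u.2 with (⟨h1, h2⟩ | ⟨h1, h2⟩ | ⟨h1, h2⟩) <;> rw [h2] <;> norm_num⟩,
     (u : Eˣ).1.e)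
  apply Finite.of_injective f
  intro u w h
  apply Subtype.ext
  apply Units.ext
  have h1 := congrArg (fun t => (t.1 : ℤ)) h
  have h2 := congrArg (fun t => (t.2.1 : ℤ)) h
  have h3 := congrArg (fun t => t.2.2) h
  exact E.ext h1 h2 h3

/-- The matrix with rows `(1, 1, 1)`, `(1, a, a²)`, `(1, c, c²)`. -/
def M : Matrix (Fin 3) (Fin 3) Eˣ := !![1, 1, 1; 1, a, a⁻¹; 1, c, c⁻¹]

theorem val_a : (a : E) = ⟨0, 1, 0⟩ := rfl
theorem val_a' : ((a⁻¹ : Eˣ) : E) = ⟨-1, -1, 0⟩ := rfl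
theorem val_c : (c : E) = ⟨-1, -1, 1⟩ := rfl
theorem val_c' : ((c⁻¹ : Eˣ) : E) = ⟨0, 1, -1⟩ := rfl

theorem cast_three : (3 : E) = ⟨3, 0, 0⟩ := by
  have : (3 : E) = 1 + 1 + 1 := by norm_num
  rw [this]
  ext <;> simp

theorem right : toMat M * invT M = vI E 3 := by
  apply Matrix.ext
  intro i j
  fin_cases i <;> fin_cases j <;>
    simp [toMat, invT, vI, M, Matrix.mul_apply, Fin.sum_univ_three, val_a, val_a', val_c, val_c',
      cast_three] <;> ext <;> simp <;> decide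

theorem not_left : invT M * toMat M ≠ vI E 3 := by
  intro h
  have h1 := congrArg (fun A => (A 0 1).e) h
  simp [toMat, invT, vI, M, Matrix.mul_apply, Fin.sum_univ_three, val_a, val_a', val_c,
    val_c'] at h1

end E

/-- There are a ring `R` with unity (even commutative), an integer `v ≥ 2` with `v ≠ 0` in `R`, a
(finite) group `N` of units of `R` and a `v × v` matrix `M` with entries in `N` such that
`M M* = v I_v` but `M* M ≠ v I_v`. -/
theorem result : ∃ (R : Type) (_ : CommRing R) (v : ℕ) (_ : 2 ≤ v) (_ : (v : R) ≠ 0)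
    (N : Subgroup Rˣ) (_ : Finite N) (M : Matrix (Fin v) (Fin v) Rˣ),
    (∀ i j, M i j ∈ N) ∧ toMat M * invT M = vI R v ∧ invT M * toMat M ≠ vI R v := by
  refine ⟨E, inferInstance, 3, by norm_num, ?_, E.N, E.finite_N, E.M, ?_, E.right, E.not_left⟩
  · intro h
    have : (3 : E) = 0 := by exact_mod_cast h
    rw [E.cast_three] at this
    have := congrArg E.x this
    simp at this
  · intro i j
    have h1 : (1 : Eˣ) ∈ E.N := E.N.one_mem
    have ha : E.a ∈ E.N := Or.inr (Or.inl ⟨rfl, rfl⟩)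
    have hc : E.c ∈ E.N := Or.inr (Or.inr ⟨rfl, rfl⟩)
    fin_cases i <;> fin_cases j
    · exact h1
    · exact h1
    · exact h1
    · exact h1
    · exact ha
    · exact E.N.inv_mem ha
    · exact h1
    · exact hc
    · exact E.N.inv_mem hc

end Pool.Agent.Results.MP_4780e6_al.OneSidedOnly
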